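import Pool.Agent.Helper46.T6.Stmts

set_option autoImplicit false

/-!
Invariance of the gauge fixing function, degree `d`.
-/

open Finset MeasureTheory Filter Topology

namespace Pool.Agent.Helper8.T6

open Pool.Agent.Helper15.T4 (nsq)
open Pool.Agent.Helper15.T6 Pool.Agent.Helper46.T6

/-- The Gaussian bump. -/
noncomputable def ww {d K : ℕ} (N : ℕ) (s : ℤˣ) (π : Equiv.Perm (Fin K × Fin 2))
    (y : (Fin K × Fin 2 → Fin d) → ℝ) (O : Fin K → Md d) : ℝ :=
  Real.exp (-(N : ℝ) * nsq (fun a => y a - ((s : ℤ) : ℝ) * pt π O a))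

theorem Psid_eq {d K : ℕ} (N : ℕ) (y : (Fin K × Fin 2 → Fin d) → ℝ) :
    Psid d K N y = ∑ s : ℤˣ, ∑ π : Equiv.Perm (Fin K × Fin 2), AVd d K (ww N s π y) := rfl

theorem nsq_eq_ip {ι : Type} [Fintype ι] (x : ι → ℝ) : nsq x = ip x x := by
  unfold nsq ip
  exact Finset.sum_congr rfl (fun i _ => pow_two _)

theorem nsq_act (hM : ST_ACTM) {d : ℕ} (J : Type) [Fintype J] [DecidableEq J] (A : J → Md d)
    (hA : ∀ j, OD (A j)) (x : (J → Fin d) → ℝ) : nsq (act A x) = nsq x := by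
  obtain ⟨h1, h2, -⟩ := hM
  rw [nsq_eq_ip, h2, (h1 ℝ d J _ _ _).1]
  have h3 : (fun j => (A j).transpose * A j) = fun _ : J => (1 : Matrix (Fin d) (Fin d) ℝ) := by
    funext j
    exact mul_eq_one_comm.mp (hA j)
  rw [h3, (h1 ℝ d J A A x).2, nsq_eq_ip]

theorem act_sub {d : ℕ} {J : Type} [Fintype J] [DecidableEq J] (A : J → Md d)
    (x y : (J → Fin d) → ℝ) :
    act A (fun a => x a - y a) = fun a => act A x a - act A y a := by
  funext a
  unfold act
  rw [← Finset.sum_sub_distrib]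
  exact Finset.sum_congr rfl (fun b _ => by ring)

theorem act_smul' {d : ℕ} {J : Type} [Fintype J] [DecidableEq J] (A : J → Md d) (s : ℝ)
    (x : (J → Fin d) → ℝ) :
    act A (fun a => s * x a) = fun a => s * act A x a := by
  funext a
  unfold act
  rw [Finset.mul_sum]
  exact Finset.sum_congr rfl (fun b _ => by ring)

theorem nsq_perm {d : ℕ} {J : Type} [Fintype J] [DecidableEq J] (π : Equiv.Perm J)
    (x : (J → Fin d) → ℝ) : nsq (fun a : J → Fin d => x (a ∘ π)) = nsq x := by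
  unfold nsq
  exact Equiv.sum_comp (Equiv.arrowCongr π.symm (Equiv.refl (Fin d))) (fun a => x a ^ 2)

theorem od_tr {d : ℕ} {A : Md d} (h : OD A) : OD A.transpose := by
  unfold OD
  rw [Matrix.transpose_transpose]
  exact mul_eq_one_comm.mp h

theorem cont_ww {d K : ℕ} (N : ℕ) (s : ℤˣ) (π : Equiv.Perm (Fin K × Fin 2))
    (x : (Fin K × Fin 2 → Fin d) → ℝ) : Continuous (fun O => ww N s π x O) := by
  unfold ww nsq pt
  refine Real.continuous_exp.comp (continuous_const.mul ?_)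
  refine continuous_finsetSum _ (fun a _ => ?_)
  refine (continuous_const.sub (continuous_const.mul ?_)).pow 2
  refine continuous_finsetProd _ (fun p _ => ?_)
  refine Continuous.div_const ?_ _
  exact ((continuous_apply _).comp ((continuous_apply _).comp (continuous_apply p)))

theorem nsq_key (hM : ST_ACTM) {d K : ℕ} (A : Fin K × Fin 2 → Md d) (hA : ∀ j, OD (A j)) (s : ℤˣ)
    (π : Equiv.Perm (Fin K × Fin 2)) (x : (Fin K × Fin 2 → Fin d) → ℝ) (O : Fin K → Md d) :
    nsq (fun a => act A x a - ((s : ℤ) : ℝ) * pt π O a) =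
      nsq (fun a => x a - ((s : ℤ) : ℝ) *
        pt π (fun p => (A (π (p, 0))).transpose * O p * A (π (p, 1))) a) := by
  have hT : ∀ j, OD ((fun j => (A j).transpose) j) := fun j => od_tr (hA j)
  rw [← nsq_act hM _ (fun j => (A j).transpose) hT (fun a => act A x a - ((s : ℤ) : ℝ) * pt π O a)]
  congr 1
  rw [act_sub, act_smul']
  have h1 : act (fun j => (A j).transpose) (act A x) = x := by
    rw [(hM.1 ℝ d _ _ _ _).1]
    have h3 : (fun j => (A j).transpose * A j) = fun _ => (1 : Matrix (Fin d) (Fin d) ℝ) := by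
      funext j
      exact mul_eq_one_comm.mp (hA j)
    rw [h3, (hM.1 ℝ d _ A A x).2]
  have h2 := hM.2.2 d K _ (fun j => (A j).transpose) π O
  funext a
  rw [h2]
  have h4 : act (fun j => (A j).transpose) (fun a => act A x a) = x := h1
  rw [h4]
  simp only [Matrix.transpose_transpose]

theorem psi_act (hM : ST_ACTM) (hI : ST_AVI) {d K : ℕ} (N : ℕ) (x : (Fin K × Fin 2 → Fin d) → ℝ)
    (A : Fin K × Fin 2 → Md d) (hA : ∀ j, OD (A j)) : Psid d K N (act A x) = Psid d K N x := by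
  rw [Psid_eq, Psid_eq]
  refine Finset.sum_congr rfl (fun s _ => Finset.sum_congr rfl (fun π _ => ?_))
  rw [← (hI d K (ww N s π x) (cont_ww N s π x)).1 (fun p => (A (π (p, 0))).transpose)
    (fun p => A (π (p, 1))) (fun p => od_tr (hA _)) (fun p => hA _)]
  congr 1
  funext O
  unfold ww
  rw [nsq_key hM A hA s π x O]

theorem psi_perm {d K : ℕ} (N : ℕ) (x : (Fin K × Fin 2 → Fin d) → ℝ)
    (ρ : Equiv.Perm (Fin K × Fin 2)) : Psid d K N (fun a => x (a ∘ ρ)) = Psid d K N x := by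
  rw [Psid_eq, Psid_eq]
  refine Finset.sum_congr rfl (fun s _ => ?_)
  rw [← Equiv.sum_comp (Equiv.mulLeft ρ⁻¹) (fun π => AVd d K (ww N s π x))]
  refine Finset.sum_congr rfl (fun π _ => ?_)
  congr 1
  funext O
  unfold ww
  have h : nsq (fun a : Fin K × Fin 2 → Fin d => x (a ∘ ρ) - ((s : ℤ) : ℝ) * pt π O a) =
      nsq (fun a => x a - ((s : ℤ) : ℝ) * pt (ρ⁻¹ * π) O a) := by
    rw [← nsq_perm ρ (fun a => x a - ((s : ℤ) : ℝ) * pt (ρ⁻¹ * π) O a)]
    congr 1
    funext a
    congr 2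
    unfold pt
    refine Finset.prod_congr rfl (fun p _ => ?_)
    simp [Equiv.Perm.mul_apply]
  rw [h]
  rfl

theorem psi_neg {d K : ℕ} (N : ℕ) (x : (Fin K × Fin 2 → Fin d) → ℝ) :
    Psid d K N (fun a => -x a) = Psid d K N x := by
  rw [Psid_eq, Psid_eq]
  rw [← Equiv.sum_comp (Equiv.neg ℤˣ)
    (fun s => ∑ π : Equiv.Perm (Fin K × Fin 2), AVd d K (ww N s π x))]
  refine Finset.sum_congr rfl (fun s _ => Finset.sum_congr rfl (fun π _ => ?_))
  congr 1
  funext O
  unfold ww nsq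
  congr 2
  refine Finset.sum_congr rfl (fun a _ => ?_)
  simp only [Equiv.neg_apply, Units.val_neg, Int.cast_neg]
  ring

theorem st_PSINV (hI : ST_AVI) (hM : ST_ACTM) : ST_PSINV := fun _ _ N x =>
  ⟨fun A hA => psi_act hM hI N x A hA, fun π => psi_perm N x π, psi_neg N x⟩

end Pool.Agent.Helper8.T6
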